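import Mathlib
import Pool.Agent.W98.RB.Defs

set_option autoImplicit false

open MeasureTheory Set Filter Topology
open scoped ENNReal NNReal

namespace Pool.Agent.W665.RB

open Pool.Agent.W98.RB

/-! ### the ramp -/

theorem H_nonneg (s : ℝ) : 0 ≤ H s := by
  unfold H; positivity

theorem H_le (s : ℝ) : H s ≤ max s 0 := by
  unfold H
  have h : 0 ≤ max s 0 := le_max_right _ _
  rw [div_le_iff₀ (by positivity)]
  nlinarith

theorem H'_nonneg (s : ℝ) : 0 ≤ H' s := by
  unfold H'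
  have h : 0 ≤ max s 0 := le_max_right _ _
  have : 1 / (1 + max s 0) ^ 2 ≤ 1 := by
    rw [div_le_one (by positivity)]
    nlinarith
  linarith

theorem H'_le (s : ℝ) : H' s ≤ 1 := by
  unfold H'
  have : 0 ≤ 1 / (1 + max s 0) ^ 2 := by positivity
  linarith

theorem H_eq_zero {s : ℝ} (h : H s = 0) : s ≤ 0 := by
  unfold H at h
  have h0 : 0 ≤ max s 0 := le_max_right _ _
  rw [div_eq_zero_iff] at h
  rcases h with h | h
  · have : max s 0 = 0 := by nlinarith [sq_nonneg (max s 0), pow_eq_zero_iff (two_ne_zero) |>.mp h]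
    exact le_of_max_le_left this.le
  · exfalso; linarith

theorem pos_of_H_ne {s : ℝ} (h : H s ≠ 0) : 0 < s := by
  by_contra hs
  apply h
  unfold H
  rw [max_eq_right (not_lt.mp hs)]
  simp

theorem H_lip (s t : ℝ) : |H s - H t| ≤ |s - t| := by
  have key : ∀ r q : ℝ, 0 ≤ r → 0 ≤ q → |r ^ 2 / (1 + r) - q ^ 2 / (1 + q)| ≤ |r - q| := by
    intro r q hr hq
    have e : r ^ 2 / (1 + r) - q ^ 2 / (1 + q) = (r - q) * ((r + q + r * q) / ((1 + r) * (1 + q))) := by
      field_simp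
      ring
    rw [e, abs_mul]
    have h1 : |(r + q + r * q) / ((1 + r) * (1 + q))| ≤ 1 := by
      rw [abs_of_nonneg (by positivity), div_le_one (by positivity)]
      nlinarith
    calc |r - q| * |(r + q + r * q) / ((1 + r) * (1 + q))| ≤ |r - q| * 1 :=
          mul_le_mul_of_nonneg_left h1 (abs_nonneg _)
      _ = |r - q| := mul_one _
  unfold H
  refine (key _ _ (le_max_right _ _) (le_max_right _ _)).trans ?_
  exact abs_max_sub_max_le_abs s t 0

theorem continuous_H : Continuous H := by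
  have : LipschitzWith 1 H := LipschitzWith.of_dist_le_mul fun s t => by
    simpa [Real.dist_eq] using H_lip s t
  exact this.continuous

/-! ### derivatives -/

theorem continuous_dx {v : ℝ × ℝ → ℝ} (h : ContDiff ℝ 1 v) : Continuous (dx v) := by
  unfold dx
  exact (h.continuous_fderiv one_ne_zero).clm_apply continuous_const

theorem continuous_dy {v : ℝ × ℝ → ℝ} (h : ContDiff ℝ 1 v) : Continuous (dy v) := by
  unfold dy
  exact (h.continuous_fderiv one_ne_zero).clm_apply continuous_const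

theorem fderiv_zero_of_notMem {ψ : ℝ × ℝ → ℝ} {p : ℝ × ℝ} (h : p ∉ tsupport ψ) :
    fderiv ℝ ψ p = 0 := by
  have := support_fderiv_subset ℝ (f := ψ)
  by_contra hne
  exact h (this (by simpa using hne))

theorem isOpen_Om {ϕ : ℝ → ℝ} (hϕ : Continuous ϕ) : IsOpen (Om ϕ) :=
  isOpen_lt (hϕ.comp continuous_fst) continuous_snd

/-! ### L² facts -/

theorem memC {f : ℝ × ℝ → ℝ} (hf : Continuous f) (A : Set (ℝ × ℝ)) (R : ℝ) :
    MemLp f 2 (volume.restrict (A ∩ Metric.ball 0 R)) := by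
  have hc : IsCompact (Metric.closedBall (0 : ℝ × ℝ) R) := isCompact_closedBall _ _
  obtain ⟨C, hC⟩ := hc.exists_bound_of_continuousOn hf.continuousOn
  have : IsFiniteMeasure (volume.restrict (A ∩ Metric.ball (0 : ℝ × ℝ) R)) := by
    refine ⟨?_⟩
    rw [Measure.restrict_apply_univ]
    exact lt_of_le_of_lt (measure_mono (inter_subset_right.trans Metric.ball_subset_closedBall))
      hc.measure_lt_top
  refine MemLp.of_bound hf.aestronglyMeasurable C ?_
  have : ∀ᵐ p ∂(volume.restrict (Metric.closedBall (0 : ℝ × ℝ) R)), ‖f p‖ ≤ C := by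
    rw [ae_restrict_iff' hc.measurableSet]
    exact Eventually.of_forall hC
  exact ae_restrict_of_ae_restrict_of_subset
    (inter_subset_right.trans Metric.ball_subset_closedBall) this

theorem memC1 {f : ℝ → ℝ} (hf : Continuous f) (R : ℝ) :
    MemLp f 2 (volume.restrict (Metric.ball 0 R)) := by
  have hc : IsCompact (Metric.closedBall (0 : ℝ) R) := isCompact_closedBall _ _
  obtain ⟨C, hC⟩ := hc.exists_bound_of_continuousOn hf.continuousOn
  have : IsFiniteMeasure (volume.restrict (Metric.ball (0 : ℝ) R)) := by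
    refine ⟨?_⟩
    rw [Measure.restrict_apply_univ]
    exact lt_of_le_of_lt (measure_mono Metric.ball_subset_closedBall)
      hc.measure_lt_top
  refine MemLp.of_bound hf.aestronglyMeasurable C ?_
  have : ∀ᵐ p ∂(volume.restrict (Metric.closedBall (0 : ℝ) R)), ‖f p‖ ≤ C := by
    rw [ae_restrict_iff' hc.measurableSet]
    exact Eventually.of_forall hC
  exact ae_restrict_of_ae_restrict_of_subset Metric.ball_subset_closedBall this

/-- `∫ f² → 0` from `‖f‖₂ → 0` -/
theorem tendsto_sq {X : Type*} [MeasurableSpace X] {μ : Measure X} {f : ℕ → X → ℝ}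
    (hf : ∀ k, MemLp (f k) 2 μ)
    (h : Tendsto (fun k => eLpNorm (f k) 2 μ) atTop (𝓝 0)) :
    Tendsto (fun k => ∫ x, (f k x) ^ 2 ∂μ) atTop (𝓝 0) := by
  have e : ∀ k, ∫ x, (f k x) ^ 2 ∂μ = (eLpNorm (f k) 2 μ).toReal ^ 2 := by
    intro k
    have := (hf k).eLpNorm_eq_integral_rpow_norm (by norm_num) (by norm_num)
    rw [this]
    have h0 : 0 ≤ ∫ x, ‖f k x‖ ^ (2 : ℝ≥0∞).toReal ∂μ := integral_nonneg fun x => by positivity
    rw [ENNReal.toReal_ofReal (by positivity), ← Real.rpow_natCast, ← Real.rpow_mul h0]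
    norm_num
  simp_rw [e]
  have h1 : Tendsto (fun k => (eLpNorm (f k) 2 μ).toReal) atTop (𝓝 0) := by
    have := (ENNReal.tendsto_toReal ENNReal.zero_ne_top).comp h
    simpa [Function.comp_def] using this
  simpa using h1.pow 2

/-- Cauchy-Schwarz -/
theorem cs {X : Type*} [MeasurableSpace X] {μ : Measure X} {f g : X → ℝ}
    (hf : MemLp f 2 μ) (hg : MemLp g 2 μ) :
    ∫ x, |f x| * |g x| ∂μ ≤ Real.sqrt (∫ x, (f x) ^ 2 ∂μ) * Real.sqrt (∫ x, (g x) ^ 2 ∂μ) := by
  have := integral_mul_norm_le_Lp_mul_Lq (μ := μ) (f := f) (g := g) (p := 2) (q := 2)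
    (by rw [Real.holderConjugate_iff]; norm_num) (by simpa using hf) (by simpa using hg)
  simpa [Real.sqrt_eq_rpow] using this

/-- integrals over `Om` of functions vanishing off the ball -/
theorem int_X {ϕ : ℝ → ℝ} (hϕ : Continuous ϕ) {R : ℝ} {f : ℝ × ℝ → ℝ}
    (hf : ∀ p, p ∉ Metric.ball (0 : ℝ × ℝ) R → f p = 0) :
    ∫ p in Om ϕ, f p = ∫ p in Om ϕ ∩ Metric.ball 0 R, f p := by
  refine setIntegral_eq_of_subset_of_forall_sdiff_eq_zero (isOpen_Om hϕ).measurableSet
    inter_subset_left ?_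
  intro p hp
  exact hf p fun h => hp.2 ⟨hp.1, h⟩

/-- the core of both maximum principles -/
theorem core (hP : S_POI) {ϕ : ℝ → ℝ} (hϕ : Continuous ϕ) {B : Set (ℝ × ℝ)} (hB : IsOpen B)
    {R : ℝ} (hBR : B ⊆ Metric.ball 0 R) {y₁ h : ℝ} (hh : 0 ≤ h)
    (hy : ∀ p ∈ B, y₁ ≤ p.2 ∧ p.2 ≤ y₁ + h) (z ψ : ℕ → ℝ × ℝ → ℝ)
    (hz : ∀ k, ContDiff ℝ 1 (z k))
    (hψ : ∀ᶠ k in atTop, ContDiff ℝ 1 (ψ k) ∧ HasCompactSupport (ψ k) ∧ (∀ p, 0 ≤ ψ k p) ∧
      tsupport (ψ k) ⊆ B ∧ (∀ p ∈ Oc ϕ ∩ B, ψ k p = H (z k p)) ∧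
      (∀ p ∈ Om ϕ ∩ B, fderiv ℝ (ψ k) p = H' (z k p) • fderiv ℝ (z k) p))
    (e : ℕ → ℝ) (he : Tendsto e atTop (𝓝 0))
    (hE : ∀ᶠ k in atTop,
      ∫ p in Om ϕ, (dx (ψ k) p * dx (z k) p + dy (ψ k) p * dy (z k) p) ≤ e k)
    (Z : ℝ × ℝ → ℝ) (mZ : Measurable Z)
    (hZ : Tendsto (fun k => ∫⁻ p in B ∩ Om ϕ, ‖z k p - Z p‖ₑ) atTop (𝓝 0)) :
    ∀ᵐ p ∂(volume.restrict (B ∩ Om ϕ)), Z p ≤ 0 := by
  set X : Set (ℝ × ℝ) := Om ϕ ∩ Metric.ball 0 R with hX
  have hOm := isOpen_Om hϕ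
  have hBX : B ∩ Om ϕ ⊆ X := fun p hp => ⟨hp.2, hBR hp.1⟩
  have finX : IsFiniteMeasure (volume.restrict X) := by
    refine ⟨?_⟩
    rw [Measure.restrict_apply_univ]
    exact lt_of_le_of_lt (measure_mono inter_subset_right) measure_ball_lt_top
  set m : ℝ := (volume.restrict X).real univ with hm
  -- the bound for the L¹ norm of `ψ k`
  have b1 : ∀ᶠ k in atTop, ∫ p in Om ϕ, |ψ k p| ≤ h * (Real.sqrt m * Real.sqrt (e k)) := by
    filter_upwards [hψ, hE] with k hk hEk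
    obtain ⟨c1, c2, c3, c4, c5, c6⟩ := hk
    have off : ∀ p, p ∉ Metric.ball (0 : ℝ × ℝ) R → fderiv ℝ (ψ k) p = 0 := fun p hp =>
      fderiv_zero_of_notMem fun h' => hp (hBR (c4 h'))
    have offx : ∀ p, p ∉ Metric.ball (0 : ℝ × ℝ) R → dx (ψ k) p = 0 := fun p hp => by
      simp [dx, off p hp]
    have offy : ∀ p, p ∉ Metric.ball (0 : ℝ × ℝ) R → dy (ψ k) p = 0 := fun p hp => by
      simp [dy, off p hp]
    have q1 : ∫ p in Om ϕ, |ψ k p| ≤ h * ∫ p in Om ϕ, |dy (ψ k) p| := by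
      refine hP ϕ hϕ (ψ k) c1 c2 y₁ h hh ?_
      intro p _ hp
      exact hy p (c4 (subset_tsupport _ hp))
    refine q1.trans (mul_le_mul_of_nonneg_left ?_ hh)
    rw [int_X hϕ (R := R) (fun p hp => by rw [offy p hp, abs_zero])]
    rw [int_X hϕ (R := R) (fun p hp => by rw [offx p hp, offy p hp]; ring)] at hEk
    have my : MemLp (dy (ψ k)) 2 (volume.restrict X) := memC (continuous_dy c1) _ _
    have mx : MemLp (dx (ψ k)) 2 (volume.restrict X) := memC (continuous_dx c1) _ _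
    have mzy : MemLp (dy (z k)) 2 (volume.restrict X) := memC (continuous_dy (hz k)) _ _
    have mzx : MemLp (dx (z k)) 2 (volume.restrict X) := memC (continuous_dx (hz k)) _ _
    have q2 := cs (memLp_const (1 : ℝ) (μ := volume.restrict X) (p := 2)) my
    simp only [abs_one, one_mul, one_pow, integral_const, smul_eq_mul, mul_one] at q2
    refine q2.trans ?_
    refine mul_le_mul_of_nonneg_left (Real.sqrt_le_sqrt ?_) (Real.sqrt_nonneg _)
    refine le_trans ?_ hEk
    refine setIntegral_mono_on my.integrable_sq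
      ((mx.integrable_mul mzx).add (my.integrable_mul mzy)) (hOm.inter Metric.isOpen_ball).measurableSet ?_
    intro p hp
    by_cases hpB : p ∈ B
    · have q3 := c6 p ⟨hp.1, hpB⟩
      have ex : dx (ψ k) p = H' (z k p) * dx (z k) p := by simp [dx, q3]
      have ey : dy (ψ k) p = H' (z k p) * dy (z k) p := by simp [dy, q3]
      rw [ex, ey]
      have h0 := H'_nonneg (z k p)
      have h1 := H'_le (z k p)
      have h2 : H' (z k p) * H' (z k p) ≤ H' (z k p) := by nlinarith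
      nlinarith [mul_nonneg h0 (mul_self_nonneg (dx (z k) p)),
        mul_le_mul_of_nonneg_right h2 (mul_self_nonneg (dy (z k) p))]
    · have : fderiv ℝ (ψ k) p = 0 := fderiv_zero_of_notMem fun h' => hpB (c4 h')
      simp [dx, dy, this]
  -- lower integrals
  have b2 : ∀ᶠ k in atTop, ∫⁻ p in B ∩ Om ϕ, ‖H (Z p)‖ₑ ≤
      ENNReal.ofReal (h * (Real.sqrt m * Real.sqrt (e k))) +
        ∫⁻ p in B ∩ Om ϕ, ‖z k p - Z p‖ₑ := by
    filter_upwards [hψ, b1] with k hk hb
    obtain ⟨c1, c2, c3, c4, c5, c6⟩ := hk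
    have q1 : ∫⁻ p in B ∩ Om ϕ, ‖ψ k p‖ₑ ≤ ENNReal.ofReal (h * (Real.sqrt m * Real.sqrt (e k))) := by
      refine le_trans ?_ (ENNReal.ofReal_le_ofReal hb)
      have ci : Integrable (ψ k) := c1.continuous.integrable_of_hasCompactSupport c2
      have := ofReal_integral_norm_eq_lintegral_enorm (ci.restrict (s := Om ϕ))
      simp only [Real.norm_eq_abs] at this
      rw [this]
      exact lintegral_mono_set inter_subset_right
    have q2 : ∫⁻ p in B ∩ Om ϕ, ‖H (Z p)‖ₑ ≤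
        ∫⁻ p in B ∩ Om ϕ, (‖ψ k p‖ₑ + ‖z k p - Z p‖ₑ) := by
      refine setLIntegral_mono' (hB.inter hOm).measurableSet ?_
      intro p hp
      have e1 : H (Z p) = ψ k p + (H (Z p) - H (z k p)) := by
        rw [c5 p ⟨show ϕ p.1 ≤ p.2 from le_of_lt hp.2, hp.1⟩]; ring
      calc ‖H (Z p)‖ₑ = ‖ψ k p + (H (Z p) - H (z k p))‖ₑ := by rw [← e1]
        _ ≤ ‖ψ k p‖ₑ + ‖H (Z p) - H (z k p)‖ₑ := enorm_add_le _ _
        _ ≤ ‖ψ k p‖ₑ + ‖z k p - Z p‖ₑ := by
            gcongr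
            rw [← ofReal_norm, ← ofReal_norm]
            refine ENNReal.ofReal_le_ofReal ?_
            rw [Real.norm_eq_abs, Real.norm_eq_abs, abs_sub_comm (z k p)]
            exact H_lip _ _
    refine q2.trans ?_
    rw [lintegral_add_left c1.continuous.measurable.enorm]
    gcongr
  have b3 : Tendsto (fun k => ENNReal.ofReal (h * (Real.sqrt m * Real.sqrt (e k))) +
        ∫⁻ p in B ∩ Om ϕ, ‖z k p - Z p‖ₑ) atTop (𝓝 0) := by
    have : Tendsto (fun k => ENNReal.ofReal (h * (Real.sqrt m * Real.sqrt (e k)))) atTop (𝓝 0) := by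
      have t1 : Tendsto (fun k => h * (Real.sqrt m * Real.sqrt (e k))) atTop (𝓝 0) := by
        have := ((Real.continuous_sqrt.tendsto 0).comp he).const_mul (Real.sqrt m) |>.const_mul h
        simpa [Function.comp_def] using this
      simpa using ENNReal.tendsto_ofReal t1
    simpa using this.add hZ
  have b4 : ∫⁻ p in B ∩ Om ϕ, ‖H (Z p)‖ₑ = 0 := by
    have := ge_of_tendsto b3 b2
    simpa using this
  have mH : Measurable fun p => ‖H (Z p)‖ₑ := (continuous_H.measurable.comp mZ).enorm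
  rw [lintegral_eq_zero_iff mH] at b4
  filter_upwards [b4] with p hp
  apply H_eq_zero
  simpa using hp

end Pool.Agent.W665.RB
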