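import Mathlib
import Pool.Agent.W665.RB.Base

set_option autoImplicit false

open MeasureTheory Set Filter Topology
open scoped ENNReal NNReal

namespace Pool.Agent.W665.RB

open Pool.Agent.W98.RB

theorem memLim {X : Type*} [MeasurableSpace X] {μ : Measure X} {f : ℕ → X → ℝ} {g : X → ℝ}
    (hf : ∀ k, MemLp (f k) 2 μ) (hg : AEStronglyMeasurable g μ)
    (h : Tendsto (fun k => eLpNorm (fun x => f k x - g x) 2 μ) atTop (𝓝 0)) : MemLp g 2 μ := by
  have : ∀ᶠ k in atTop, eLpNorm (fun x => f k x - g x) 2 μ < 1 :=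
    h.eventually_lt_const (by norm_num)
  obtain ⟨k, hk⟩ := this.exists
  have m1 : MemLp (fun x => f k x - g x) 2 μ :=
    ⟨(hf k).1.sub hg, hk.trans (by norm_num)⟩
  have : g = fun x => f k x - (f k x - g x) := by ext x; ring
  rw [this]
  exact (hf k).sub m1

section

variable {ϕ : ℝ → ℝ} {u Gx Gy : ℝ × ℝ → ℝ} {T : ℝ → ℝ} {v : ℕ → ℝ × ℝ → ℝ}

theorem memGx (ha : Ap ϕ u Gx Gy T v) (R : ℝ) :
    MemLp Gx 2 (volume.restrict (Om ϕ ∩ Metric.ball 0 R)) :=
  memLim (fun k => memC (continuous_dx (ha.c1 k)) _ _) ha.mx.aestronglyMeasurable (ha.cx R)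

theorem memGy (ha : Ap ϕ u Gx Gy T v) (R : ℝ) :
    MemLp Gy 2 (volume.restrict (Om ϕ ∩ Metric.ball 0 R)) :=
  memLim (fun k => memC (continuous_dy (ha.c1 k)) _ _) ha.my.aestronglyMeasurable (ha.cy R)

theorem memu (ha : Ap ϕ u Gx Gy T v) (R : ℝ) :
    MemLp u 2 (volume.restrict (Om ϕ ∩ Metric.ball 0 R)) :=
  memLim (fun k => memC (ha.c1 k).continuous _ _) ha.mu.aestronglyMeasurable (ha.cu R)

theorem cont_tr (hϕ : Continuous ϕ) {w : ℝ × ℝ → ℝ} (hw : Continuous w) :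
    Continuous fun x => w (x, ϕ x) := hw.comp (continuous_id.prodMk hϕ)

theorem memT (hϕ : Continuous ϕ) (ha : Ap ϕ u Gx Gy T v) (R : ℝ) :
    MemLp T 2 (volume.restrict (Metric.ball 0 R)) :=
  memLim (f := fun k x => v k (x, ϕ x))
    (fun k => memC1 (cont_tr hϕ (ha.c1 k).continuous) _) ha.mT.aestronglyMeasurable (ha.cT R)

/-- the error term -/
noncomputable def Dk (ϕ : ℝ → ℝ) (Gx Gy : ℝ × ℝ → ℝ) (w : ℝ × ℝ → ℝ) (R : ℝ) : ℝ :=
  ∫ p in Om ϕ ∩ Metric.ball 0 R, ((dx w p - Gx p) ^ 2 + (dy w p - Gy p) ^ 2)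

/-- the boundary error term -/
noncomputable def Qk (ϕ : ℝ → ℝ) (T : ℝ → ℝ) (w : ℝ × ℝ → ℝ) (R : ℝ) : ℝ :=
  ∫ x in Metric.ball (0 : ℝ) R, |w (x, ϕ x) - T x| * (1 + |w (x, ϕ x)|)

theorem tendsto_D (ha : Ap ϕ u Gx Gy T v) (R : ℝ) :
    Tendsto (fun k => Dk ϕ Gx Gy (v k) R) atTop (𝓝 0) := by
  have m1 := fun k => (memC (continuous_dx (ha.c1 k)) (Om ϕ) R).sub (memGx ha R)
  have m2 := fun k => (memC (continuous_dy (ha.c1 k)) (Om ϕ) R).sub (memGy ha R)
  have t1 := tendsto_sq m1 (ha.cx R)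
  have t2 := tendsto_sq m2 (ha.cy R)
  have := t1.add t2
  rw [add_zero] at this
  refine this.congr fun k => ?_
  unfold Dk
  rw [← integral_add (m1 k).integrable_sq (m2 k).integrable_sq]
  rfl

theorem int_Q (hϕ : Continuous ϕ) (ha : Ap ϕ u Gx Gy T v) (R : ℝ) (k : ℕ) :
    Integrable (fun x => |v k (x, ϕ x) - T x| * (1 + |v k (x, ϕ x)|))
      (volume.restrict (Metric.ball (0 : ℝ) R)) := by
  have hc := cont_tr hϕ (ha.c1 k).continuous
  have m1 : MemLp (fun x => |v k (x, ϕ x) - T x|) 2 (volume.restrict (Metric.ball (0 : ℝ) R)) :=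
    ((memC1 hc R).sub (memT hϕ ha R)).abs
  have m2 : MemLp (fun x => 1 + |v k (x, ϕ x)|) 2 (volume.restrict (Metric.ball (0 : ℝ) R)) :=
    memC1 (continuous_const.add hc.abs) R
  exact m1.integrable_mul m2

theorem tendsto_Q (hϕ : Continuous ϕ) (ha : Ap ϕ u Gx Gy T v) (R : ℝ) :
    Tendsto (fun k => Qk ϕ T (v k) R) atTop (𝓝 0) := by
  set μ : Measure ℝ := volume.restrict (Metric.ball (0 : ℝ) R) with hμ
  have hc := fun k => cont_tr hϕ (ha.c1 k).continuous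
  have m1 : ∀ k, MemLp (fun x => v k (x, ϕ x) - T x) 2 μ := fun k =>
    (memC1 (hc k) R).sub (memT hϕ ha R)
  have m2 : MemLp (fun x => 1 + |T x|) 2 μ :=
    (memC1 continuous_const R).add (memT hϕ ha R).abs
  have t1 := tendsto_sq m1 (ha.cT R)
  set K := Real.sqrt (∫ x, (1 + |T x|) ^ 2 ∂μ) with hK
  have t2 : Tendsto (fun k => (∫ x, (v k (x, ϕ x) - T x) ^ 2 ∂μ) +
      Real.sqrt (∫ x, (v k (x, ϕ x) - T x) ^ 2 ∂μ) * K) atTop (𝓝 0) := by
    have := t1.add (((Real.continuous_sqrt.tendsto 0).comp t1).mul_const K)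
    simpa [Function.comp_def] using this
  refine squeeze_zero (fun k => ?_) (fun k => ?_) t2
  · exact integral_nonneg fun x => by positivity
  · unfold Qk
    have c := cs (m1 k) m2
    refine le_trans ?_ (add_le_add_right c _)
    have i2 : Integrable (fun x => |v k (x, ϕ x) - T x| * abs (1 + abs (T x))) μ :=
      (m1 k).abs.integrable_mul m2.abs
    rw [← integral_add (m1 k).integrable_sq i2]
    refine integral_mono (int_Q hϕ ha R k) ((m1 k).integrable_sq.add i2) ?_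
    intro x
    show |v k (x, ϕ x) - T x| * (1 + |v k (x, ϕ x)|) ≤
      (v k (x, ϕ x) - T x) ^ 2 + |v k (x, ϕ x) - T x| * abs (1 + abs (T x))
    have h1 : |v k (x, ϕ x)| ≤ |v k (x, ϕ x) - T x| + |T x| := by
      have := abs_add_le (v k (x, ϕ x) - T x) (T x)
      simpa using this
    have h2 : abs (1 + abs (T x)) = 1 + |T x| := abs_of_nonneg (by positivity)
    rw [h2, ← sq_abs (v k (x, ϕ x) - T x)]
    nlinarith [mul_le_mul_of_nonneg_left h1 (abs_nonneg (v k (x, ϕ x) - T x))]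

end

end Pool.Agent.W665.RB
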