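import Mathlib
import Pool.Agent.W665.RB.Err

set_option autoImplicit false

open MeasureTheory Set Filter Topology
open scoped ENNReal NNReal

namespace Pool.Agent.W665.RB

open Pool.Agent.W98.RB

theorem finX (ϕ : ℝ → ℝ) (R : ℝ) :
    IsFiniteMeasure (volume.restrict (Om ϕ ∩ Metric.ball (0 : ℝ × ℝ) R)) := by
  refine ⟨?_⟩
  rw [Measure.restrict_apply_univ]
  exact lt_of_le_of_lt (measure_mono inter_subset_right) measure_ball_lt_top

/-- `L²` convergence on the ball gives `L¹` convergence on `B ∩ Om` -/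
theorem tendsto_L1 {ϕ : ℝ → ℝ} {u Gx Gy : ℝ × ℝ → ℝ} {T : ℝ → ℝ} {v : ℕ → ℝ × ℝ → ℝ}
    (ha : Ap ϕ u Gx Gy T v) {B : Set (ℝ × ℝ)} {R : ℝ} (hBR : B ⊆ Metric.ball 0 R) :
    Tendsto (fun k => ∫⁻ p in B ∩ Om ϕ, ‖v k p - u p‖ₑ) atTop (𝓝 0) := by
  set X : Set (ℝ × ℝ) := Om ϕ ∩ Metric.ball 0 R with hX
  have hBX : B ∩ Om ϕ ⊆ X := fun p hp => ⟨hp.2, hBR hp.1⟩
  have := finX ϕ R
  have h1 : ∀ k, ∫⁻ p in B ∩ Om ϕ, ‖v k p - u p‖ₑ ≤
      eLpNorm (fun p => v k p - u p) 2 (volume.restrict X) *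
        (volume.restrict X) univ ^ ((1 : ℝ) / 2) := by
    intro k
    have m := (ha.c1 k).continuous.aestronglyMeasurable.sub ha.mu.aestronglyMeasurable
      (μ := volume.restrict X)
    have := eLpNorm_le_eLpNorm_mul_rpow_measure_univ (μ := volume.restrict X)
      (p := 1) (q := 2) (by norm_num) m
    refine (lintegral_mono_set hBX).trans ?_
    rw [← eLpNorm_one_eq_lintegral_enorm]
    refine this.trans (le_of_eq ?_)
    norm_num
    rfl
  refine tendsto_of_tendsto_of_tendsto_of_le_of_le tendsto_const_nhds ?_ (fun _ => bot_le) h1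
  have : (volume.restrict X) univ ^ ((1 : ℝ) / 2) ≠ ⊤ :=
    ENNReal.rpow_ne_top_of_nonneg (by norm_num) (measure_ne_top _ _)
  simpa using ENNReal.Tendsto.mul_const (ha.cu R) (Or.inr this)

/-- Young's inequality for the error term -/
theorem young {ϕ : ℝ → ℝ} (hϕ : Continuous ϕ) {B : Set (ℝ × ℝ)} {R : ℝ}
    {Gx Gy : ℝ × ℝ → ℝ}
    (mGx : MemLp Gx 2 (volume.restrict (Om ϕ ∩ Metric.ball 0 R)))
    (mGy : MemLp Gy 2 (volume.restrict (Om ϕ ∩ Metric.ball 0 R)))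
    {w z ψ : ℝ × ℝ → ℝ} (hw : ContDiff ℝ 1 w) (hz : ContDiff ℝ 1 z) (hψ : ContDiff ℝ 1 ψ)
    (hs : tsupport ψ ⊆ B)
    (hd : ∀ p ∈ Om ϕ ∩ B, fderiv ℝ ψ p = H' (z p) • fderiv ℝ z p) (s : ℝ) (hs1 : s ^ 2 = 1) :
    ∫ p in Om ϕ ∩ Metric.ball 0 R, s * (dx ψ p * (dx w p - Gx p) + dy ψ p * (dy w p - Gy p)) ≤
      1 / 2 * (∫ p in Om ϕ ∩ Metric.ball 0 R, (dx ψ p * dx z p + dy ψ p * dy z p))
        + 1 / 2 * Dk ϕ Gx Gy w R := by
  have m1 := memC (continuous_dx hψ) (Om ϕ) R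
  have m2 := memC (continuous_dy hψ) (Om ϕ) R
  have m3 := (memC (continuous_dx hw) (Om ϕ) R).sub mGx
  have m4 := (memC (continuous_dy hw) (Om ϕ) R).sub mGy
  have m5 := memC (continuous_dx hz) (Om ϕ) R
  have m6 := memC (continuous_dy hz) (Om ϕ) R
  have iL : Integrable (fun p => s * (dx ψ p * (dx w p - Gx p) + dy ψ p * (dy w p - Gy p)))
      (volume.restrict (Om ϕ ∩ Metric.ball 0 R)) :=
    ((m1.integrable_mul m3).add (m2.integrable_mul m4)).const_mul s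
  have iE : Integrable (fun p => dx ψ p * dx z p + dy ψ p * dy z p)
      (volume.restrict (Om ϕ ∩ Metric.ball 0 R)) :=
    (m1.integrable_mul m5).add (m2.integrable_mul m6)
  have iD : Integrable (fun p => (dx w p - Gx p) ^ 2 + (dy w p - Gy p) ^ 2)
      (volume.restrict (Om ϕ ∩ Metric.ball 0 R)) :=
    m3.integrable_sq.add m4.integrable_sq
  unfold Dk
  rw [← integral_const_mul, ← integral_const_mul,
    ← integral_add (iE.const_mul _) (iD.const_mul _)]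
  refine setIntegral_mono_on iL ((iE.const_mul _).add (iD.const_mul _))
    ((isOpen_Om hϕ).inter Metric.isOpen_ball).measurableSet ?_
  intro p hp
  have key : dx ψ p ^ 2 + dy ψ p ^ 2 ≤ dx ψ p * dx z p + dy ψ p * dy z p := by
    by_cases hpB : p ∈ B
    · have q3 := hd p ⟨hp.1, hpB⟩
      have ex : dx ψ p = H' (z p) * dx z p := by simp [dx, q3]
      have ey : dy ψ p = H' (z p) * dy z p := by simp [dy, q3]
      rw [ex, ey]
      have h0 := H'_nonneg (z p)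
      have h1 := H'_le (z p)
      have h2 : H' (z p) * H' (z p) ≤ H' (z p) := by nlinarith
      nlinarith [mul_le_mul_of_nonneg_right h2 (mul_self_nonneg (dx z p)),
        mul_le_mul_of_nonneg_right h2 (mul_self_nonneg (dy z p))]
    · have : fderiv ℝ ψ p = 0 := fderiv_zero_of_notMem fun h' => hpB (hs h')
      simp [dx, dy, this]
  have e1 : s * (dx ψ p * (dx w p - Gx p)) ≤ 1 / 2 * dx ψ p ^ 2 + 1 / 2 * (dx w p - Gx p) ^ 2 := by
    nlinarith [sq_nonneg (dx ψ p - s * (dx w p - Gx p)), sq_nonneg (dx w p - Gx p)]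
  have e2 : s * (dy ψ p * (dy w p - Gy p)) ≤ 1 / 2 * dy ψ p ^ 2 + 1 / 2 * (dy w p - Gy p) ^ 2 := by
    nlinarith [sq_nonneg (dy ψ p - s * (dy w p - Gy p)), sq_nonneg (dy w p - Gy p)]
  nlinarith

/-- the boundary term lives on the ball -/
theorem bd_ball {ϕ : ℝ → ℝ} {B : Set (ℝ × ℝ)} {R : ℝ} (hBR : B ⊆ Metric.ball 0 R)
    {ψ : ℝ × ℝ → ℝ} (hs : tsupport ψ ⊆ B) {x : ℝ} (hx : x ∉ Metric.ball (0 : ℝ) R) :
    ψ (x, ϕ x) = 0 := by
  by_contra hne
  apply hx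
  have := hBR (hs (subset_tsupport _ hne))
  rw [mem_ball_zero_iff] at this ⊢
  exact lt_of_le_of_lt (norm_fst_le (x, ϕ x)) this

theorem bd_int {R : ℝ} {f : ℝ → ℝ}
    (hf : ∀ x, x ∉ Metric.ball (0 : ℝ) R → f x = 0) :
    ∫ x, f x = ∫ x in Metric.ball (0 : ℝ) R, f x := by
  symm
  exact setIntegral_eq_integral_of_forall_compl_eq_zero hf

/-- integrability of the boundary term -/
theorem int_bd {ϕ : ℝ → ℝ} (hϕ : Continuous ϕ) {T σ : ℝ → ℝ} {S R : ℝ}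
    (mT : MemLp T 2 (volume.restrict (Metric.ball (0 : ℝ) R))) (mσ : Measurable σ)
    (s0 : ∀ x, 0 ≤ σ x) (sS : ∀ x, σ x ≤ S) {ψ : ℝ × ℝ → ℝ} (hψ : Continuous ψ) :
    Integrable (fun x => T x * ψ (x, ϕ x) * σ x) (volume.restrict (Metric.ball (0 : ℝ) R)) := by
  have m1 := memC1 (cont_tr hϕ hψ) R
  have i1 := mT.integrable_mul m1
  refine i1.mul_bdd (c := S) mσ.aestronglyMeasurable (Eventually.of_forall fun x => ?_)
  rw [Real.norm_eq_abs, abs_of_nonneg (s0 x)]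
  exact sS x

end Pool.Agent.W665.RB
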