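import Mathlib
import Pool.Agent.W665.RB.En

set_option autoImplicit false

open MeasureTheory Set Filter Topology
open scoped ENNReal NNReal

namespace Pool.Agent.W665.RB

open Pool.Agent.W98.RB

section

variable {ϕ : ℝ → ℝ} {K : ℝ≥0} {α : ℝ} {σ : ℝ → ℝ} {S F : ℝ}
  {u Gx Gy : ℝ × ℝ → ℝ} {T : ℝ → ℝ} {g : ℝ × ℝ → ℝ} {v : ℕ → ℝ × ℝ → ℝ}

theorem F_nonneg (hS : Sol ϕ K α σ S F u Gx Gy T g v) : 0 ≤ F := by
  have hp : ((0 : ℝ), ϕ 0 + 1) ∈ Om ϕ := by
    show ϕ 0 < ϕ 0 + 1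
    linarith
  exact (hS.g0 _ hp).trans (hS.gF _ hp)

theorem S_nonneg (hS : Sol ϕ K α σ S F u Gx Gy T g v) : 0 ≤ S :=
  (hS.s0 0).trans (hS.sS 0)

/-- integrability of `g ψ` -/
theorem int_g (hS : Sol ϕ K α σ S F u Gx Gy T g v) {ψ : ℝ × ℝ → ℝ} (h1 : ContDiff ℝ 1 ψ)
    (h2 : HasCompactSupport ψ) : IntegrableOn (fun p => g p * ψ p) (Om ϕ) := by
  have hϕ := hS.lip.continuous
  have i : IntegrableOn ψ (Om ϕ) := (h1.continuous.integrable_of_hasCompactSupport h2).integrableOn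
  refine (i.norm.const_mul F).mono' (hS.mg.aestronglyMeasurable.mul h1.continuous.aestronglyMeasurable) ?_
  rw [ae_restrict_iff' (isOpen_Om hϕ).measurableSet]
  refine Eventually.of_forall fun p hp => ?_
  rw [norm_mul, Real.norm_eq_abs, abs_of_nonneg (hS.g0 p hp)]
  exact mul_le_mul_of_nonneg_right (hS.gF p hp) (norm_nonneg _)

/-- one step of the maximum principle -/
theorem step_max (hL : S_LIN) (hS : Sol ϕ K α σ S F u Gx Gy T g v) {B : Set (ℝ × ℝ)} {R : ℝ}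
    (hBR : B ⊆ Metric.ball 0 R) {y₁ h : ℝ}
    (hy : ∀ p ∈ B, y₁ ≤ p.2 ∧ p.2 ≤ y₁ + h) {c : ℝ} (hc : 0 ≤ c) {k : ℕ} {z ψ : ℝ × ℝ → ℝ}
    (hzd : ∀ p, z p = v k p - (c + F / 2 * (h ^ 2 - (p.2 - y₁) ^ 2)))
    (c1 : ContDiff ℝ 1 ψ) (c2 : HasCompactSupport ψ) (c3 : ∀ p, 0 ≤ ψ p) (c4 : tsupport ψ ⊆ B)
    (c5 : ∀ p ∈ Oc ϕ ∩ B, ψ p = H (z p))
    (c6 : ∀ p ∈ Om ϕ ∩ B, fderiv ℝ ψ p = H' (z p) • fderiv ℝ z p) :
    ∫ p in Om ϕ, (dx ψ p * dx z p + dy ψ p * dy z p) ≤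
      Dk ϕ Gx Gy (v k) R + 2 * α⁻¹ * S * Qk ϕ T (v k) R := by
  have hϕ := hS.lip.continuous
  have hF := F_nonneg hS
  have hS0 := S_nonneg hS
  have ha := hS.ap
  have hα : 0 < α⁻¹ := inv_pos.mpr hS.apos
  have hv := ha.c1 k
  -- derivatives of `z`
  have hzf : ∀ p, HasFDerivAt z (fderiv ℝ (v k) p +
      (F * (p.2 - y₁)) • ContinuousLinearMap.snd ℝ ℝ ℝ) p := by
    intro p
    have e : z = fun p => v k p - (c + F / 2 * (h ^ 2 - (p.2 - y₁) ^ 2)) := funext hzd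
    rw [e]
    have d1 : HasFDerivAt (v k) (fderiv ℝ (v k) p) p :=
      ((hv.differentiable one_ne_zero) p).hasFDerivAt
    have d2 : HasFDerivAt (fun p : ℝ × ℝ => p.2 - y₁) (ContinuousLinearMap.snd ℝ ℝ ℝ) p :=
      hasFDerivAt_snd.sub_const y₁
    have d3 : HasFDerivAt (fun p : ℝ × ℝ => v k p - (c + F / 2 * (h ^ 2 - (p.2 - y₁) ^ 2))) _ p :=
      d1.sub ((((d2.pow 2).const_sub (h ^ 2)).const_mul (F / 2)).const_add c)
    refine d3.congr_fderiv ?_
    ext q <;> simp <;> ring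
  have ezx : ∀ p, dx z p = dx (v k) p := fun p => by
    simp [dx, (hzf p).fderiv]
  have ezy : ∀ p, dy z p = dy (v k) p + F * (p.2 - y₁) := fun p => by
    simp [dy, (hzf p).fderiv]
  have hz : ContDiff ℝ 1 z := by
    have e : z = fun p => v k p - (c + F / 2 * (h ^ 2 - (p.2 - y₁) ^ 2)) := funext hzd
    rw [e]
    fun_prop
  -- off the ball
  have off : ∀ p, p ∉ Metric.ball (0 : ℝ × ℝ) R → fderiv ℝ ψ p = 0 := fun p hp =>
    fderiv_zero_of_notMem fun h' => hp (hBR (c4 h'))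
  have offx : ∀ p, p ∉ Metric.ball (0 : ℝ × ℝ) R → dx ψ p = 0 := fun p hp => by
    simp [dx, off p hp]
  have offy : ∀ p, p ∉ Metric.ball (0 : ℝ × ℝ) R → dy ψ p = 0 := fun p hp => by
    simp [dy, off p hp]
  have mψx := memC (continuous_dx c1) (Om ϕ) R
  have mψy := memC (continuous_dy c1) (Om ϕ) R
  have mvx := (memC (continuous_dx hv) (Om ϕ) R).sub (memGx ha R)
  have mvy := (memC (continuous_dy hv) (Om ϕ) R).sub (memGy ha R)
  have mq : MemLp (fun p : ℝ × ℝ => F * (p.2 - y₁)) 2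
      (volume.restrict (Om ϕ ∩ Metric.ball (0 : ℝ × ℝ) R)) := memC (by fun_prop) _ _
  have i1 : Integrable (fun p => 1 * (dx ψ p * (dx (v k) p - Gx p) + dy ψ p * (dy (v k) p - Gy p)))
      (volume.restrict (Om ϕ ∩ Metric.ball (0 : ℝ × ℝ) R)) :=
    ((mψx.integrable_mul mvx).add (mψy.integrable_mul mvy)).const_mul 1
  have i2 : Integrable (fun p => Gx p * dx ψ p + Gy p * dy ψ p)
      (volume.restrict (Om ϕ ∩ Metric.ball (0 : ℝ × ℝ) R)) :=
    ((memGx ha R).integrable_mul mψx).add ((memGy ha R).integrable_mul mψy)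
  have i3 : Integrable (fun p => dy ψ p * (F * (p.2 - y₁)))
      (volume.restrict (Om ϕ ∩ Metric.ball (0 : ℝ × ℝ) R)) := mψy.integrable_mul mq
  -- (1) splitting
  have s1 : ∫ p in Om ϕ, (dx ψ p * dx z p + dy ψ p * dy z p) =
      (∫ p in Om ϕ ∩ Metric.ball 0 R,
        1 * (dx ψ p * (dx (v k) p - Gx p) + dy ψ p * (dy (v k) p - Gy p)))
      + (∫ p in Om ϕ, (Gx p * dx ψ p + Gy p * dy ψ p))
      + ∫ p in Om ϕ, dy ψ p * (F * (p.2 - y₁)) := by
    rw [int_X hϕ (R := R) (f := fun p => dx ψ p * dx z p + dy ψ p * dy z p)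
        (fun p hp => by rw [offx p hp, offy p hp]; ring),
      int_X hϕ (R := R) (f := fun p => Gx p * dx ψ p + Gy p * dy ψ p)
        (fun p hp => by rw [offx p hp, offy p hp]; ring),
      int_X hϕ (R := R) (f := fun p => dy ψ p * (F * (p.2 - y₁)))
        (fun p hp => by rw [offy p hp]; ring)]
    calc ∫ p in Om ϕ ∩ Metric.ball 0 R, (dx ψ p * dx z p + dy ψ p * dy z p)
        = ∫ p in Om ϕ ∩ Metric.ball 0 R,
          ((1 * (dx ψ p * (dx (v k) p - Gx p) + dy ψ p * (dy (v k) p - Gy p))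
            + (Gx p * dx ψ p + Gy p * dy ψ p)) + dy ψ p * (F * (p.2 - y₁))) := by
          refine integral_congr_ae (Eventually.of_forall fun p => ?_)
          show dx ψ p * dx z p + dy ψ p * dy z p = _
          rw [ezx p, ezy p]
          ring
      _ = (∫ p in Om ϕ ∩ Metric.ball 0 R,
          (1 * (dx ψ p * (dx (v k) p - Gx p) + dy ψ p * (dy (v k) p - Gy p))
            + (Gx p * dx ψ p + Gy p * dy ψ p)))
          + ∫ p in Om ϕ ∩ Metric.ball 0 R, dy ψ p * (F * (p.2 - y₁)) :=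
          integral_add (i1.add i2) i3
      _ = _ := by rw [integral_add i1 i2]
  -- (2) Young
  have s2 := young hϕ (memGx ha R) (memGy ha R) hv hz c1 c4 c6 1 (by norm_num)
  rw [← int_X hϕ (R := R) (f := fun p => dx ψ p * dx z p + dy ψ p * dy z p)
        (fun p hp => by rw [offx p hp, offy p hp]; ring)] at s2
  -- (3) weak form
  have s3 := hS.wk ψ c1 c2
  have s4 : ∫ p in Om ϕ, g p * ψ p ≤ F * ∫ p in Om ϕ, ψ p := by
    rw [← integral_const_mul]
    refine setIntegral_mono_on (int_g hS c1 c2)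
      ((c1.continuous.integrable_of_hasCompactSupport c2).integrableOn.const_mul F)
      (isOpen_Om hϕ).measurableSet fun p hp => ?_
    exact mul_le_mul_of_nonneg_right (hS.gF p hp) (c3 p)
  -- (4) LIN
  have s5 : ∫ p in Om ϕ, dy ψ p * (F * (p.2 - y₁)) ≤ -(F * ∫ p in Om ϕ, ψ p) := by
    have cc1 : ContDiff ℝ 1 fun p : ℝ × ℝ => ψ p * (F * (p.2 - y₁)) := by fun_prop
    have cc2 : HasCompactSupport fun p : ℝ × ℝ => ψ p * (F * (p.2 - y₁)) := c2.mul_right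
    have l := hL ϕ hϕ _ cc1 cc2
    have ed : ∀ p, dy (fun p : ℝ × ℝ => ψ p * (F * (p.2 - y₁))) p =
        dy ψ p * (F * (p.2 - y₁)) + F * ψ p := by
      intro p
      have d1 : HasFDerivAt ψ (fderiv ℝ ψ p) p := ((c1.differentiable one_ne_zero) p).hasFDerivAt
      have d2 : HasFDerivAt (fun p : ℝ × ℝ => p.2 - y₁) (ContinuousLinearMap.snd ℝ ℝ ℝ) p :=
        hasFDerivAt_snd.sub_const y₁
      have d3 := d1.mul (d2.const_mul F)
      unfold dy
      have d4 : fderiv ℝ (fun p : ℝ × ℝ => ψ p * (F * (p.2 - y₁))) p = _ := d3.fderiv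
      rw [d4]
      simp
      ring
    have j1 : IntegrableOn (fun p => dy ψ p * (F * (p.2 - y₁))) (Om ϕ) := by
      have : Continuous fun p : ℝ × ℝ => dy ψ p * (F * (p.2 - y₁)) :=
        (continuous_dy c1).mul (by fun_prop)
      refine (this.integrable_of_hasCompactSupport ?_).integrableOn
      refine HasCompactSupport.mul_right ?_
      exact (c2.fderiv_apply ℝ (0, 1))
    have j2 : IntegrableOn (fun p => F * ψ p) (Om ϕ) :=
      (c1.continuous.integrable_of_hasCompactSupport c2).integrableOn.const_mul F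
    simp_rw [ed] at l
    rw [integral_add j1 j2, integral_const_mul] at l
    have l2 : 0 ≤ ∫ x, ψ (x, ϕ x) * (F * (ϕ x - y₁)) := by
      refine integral_nonneg fun x => ?_
      show 0 ≤ ψ (x, ϕ x) * (F * (ϕ x - y₁))
      by_cases h0 : ψ (x, ϕ x) = 0
      · rw [h0, zero_mul]
      · have := hy _ (c4 (subset_tsupport _ h0))
        have h3 : 0 ≤ ϕ x - y₁ := by
          have := this.1
          simp only at this
          linarith
        exact mul_nonneg (c3 _) (mul_nonneg hF h3)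
    linarith
  -- (5) boundary term
  have s6 : -(∫ x, T x * ψ (x, ϕ x) * σ x) ≤ S * Qk ϕ T (v k) R := by
    rw [bd_int (R := R) (f := fun x => T x * ψ (x, ϕ x) * σ x)
      (fun x hx => by rw [bd_ball hBR c4 hx]; ring)]
    unfold Qk
    rw [← integral_neg, ← integral_const_mul]
    refine setIntegral_mono_on (int_bd hϕ (memT hϕ ha R) hS.ms hS.s0 hS.sS c1.continuous).neg
      ((int_Q hϕ ha R k).const_mul S) measurableSet_ball fun x _ => ?_
    by_cases h0 : ψ (x, ϕ x) = 0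
    · rw [h0]
      simp only [mul_zero, zero_mul, neg_zero]
      positivity
    · have hB : (x, ϕ x) ∈ B := c4 (subset_tsupport _ h0)
      have e := c5 (x, ϕ x) ⟨le_refl (ϕ x), hB⟩
      have hz0 : 0 < z (x, ϕ x) := pos_of_H_ne (by rw [← e]; exact h0)
      have hle : ψ (x, ϕ x) ≤ z (x, ϕ x) := by
        rw [e]
        exact (H_le _).trans (by rw [max_eq_left hz0.le])
      have hyy := hy _ hB
      simp only at hyy
      have hq : 0 ≤ F / 2 * (h ^ 2 - (ϕ x - y₁) ^ 2) := by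
        apply mul_nonneg (by linarith)
        nlinarith [hyy.1, hyy.2]
      have hzz := hzd (x, ϕ x)
      simp only at hzz
      have hvz : z (x, ϕ x) ≤ v k (x, ϕ x) := by linarith
      have hv0 : 0 < v k (x, ϕ x) := lt_of_lt_of_le hz0 hvz
      have hψ0 := c3 (x, ϕ x)
      have hσ := hS.s0 x
      have hσS := hS.sS x
      have a1 : -(T x * ψ (x, ϕ x) * σ x) ≤ |v k (x, ϕ x) - T x| * (ψ (x, ϕ x) * σ x) := by
        have : -(T x) ≤ |v k (x, ϕ x) - T x| := by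
          have := le_abs_self (v k (x, ϕ x) - T x)
          linarith
        calc -(T x * ψ (x, ϕ x) * σ x) = -(T x) * (ψ (x, ϕ x) * σ x) := by ring
          _ ≤ _ := mul_le_mul_of_nonneg_right this (mul_nonneg hψ0 hσ)
      have a2 : ψ (x, ϕ x) * σ x ≤ S * (1 + |v k (x, ϕ x)|) := by
        have b1 : ψ (x, ϕ x) ≤ 1 + |v k (x, ϕ x)| := by
          rw [abs_of_pos hv0]; linarith
        calc ψ (x, ϕ x) * σ x ≤ (1 + |v k (x, ϕ x)|) * S :=
              mul_le_mul b1 hσS hσ (by positivity)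
          _ = _ := mul_comm _ _
      calc -(T x * ψ (x, ϕ x) * σ x) ≤ |v k (x, ϕ x) - T x| * (ψ (x, ϕ x) * σ x) := a1
        _ ≤ |v k (x, ϕ x) - T x| * (S * (1 + |v k (x, ϕ x)|)) :=
            mul_le_mul_of_nonneg_left a2 (abs_nonneg _)
        _ = S * (|v k (x, ϕ x) - T x| * (1 + |v k (x, ϕ x)|)) := by ring
  have s7 : -(α⁻¹ * ∫ x, T x * ψ (x, ϕ x) * σ x) ≤ α⁻¹ * (S * Qk ϕ T (v k) R) := by
    calc -(α⁻¹ * ∫ x, T x * ψ (x, ϕ x) * σ x) = α⁻¹ * (-(∫ x, T x * ψ (x, ϕ x) * σ x)) := by ring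
      _ ≤ _ := mul_le_mul_of_nonneg_left s6 hα.le
  nlinarith [s1, s2, s3, s4, s5, s7]

end

/-- RB-MAX -/
theorem T_MAX (hC : S_CUT) (hL : S_LIN) (hP : S_POI) : S_MAX := by
  intro ϕ K α σ S F u Gx Gy T g v hS B hB bB y₁ h hh hy M hM hfr
  have hϕ := hS.lip.continuous
  have hF := F_nonneg hS
  have ha := hS.ap
  obtain ⟨R, hBR⟩ := bB.subset_ball 0
  suffices hδ : ∀ δ > 0, ∀ᵐ p ∂(volume.restrict (B ∩ Om ϕ)), u p ≤ M + 2 * δ + F * h ^ 2 / 2 by
    have := ae_all_iff.2 (fun n : ℕ => hδ (1 / ((n : ℝ) + 1)) (by positivity))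
    filter_upwards [this] with p hp
    by_contra hcon
    push Not at hcon
    obtain ⟨n, hn⟩ := exists_nat_one_div_lt (K := ℝ)
      (show 0 < (u p - (M + F * h ^ 2 / 2)) / 2 by linarith)
    have := hp n
    linarith
  intro δ hδ
  set c : ℝ := M + 2 * δ with hc
  have hc0 : 0 ≤ c := by rw [hc]; linarith
  set z : ℕ → ℝ × ℝ → ℝ := fun k p => v k p - (c + F / 2 * (h ^ 2 - (p.2 - y₁) ^ 2)) with hz
  have hz1 : ∀ k, ContDiff ℝ 1 (z k) := fun k => by
    have := ha.c1 k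
    rw [hz]
    fun_prop
  have hcl : ∀ p ∈ closure B, y₁ ≤ p.2 ∧ p.2 ≤ y₁ + h := by
    have hcc : IsClosed {p : ℝ × ℝ | y₁ ≤ p.2 ∧ p.2 ≤ y₁ + h} :=
      (isClosed_le continuous_const continuous_snd).inter
        (isClosed_le continuous_snd continuous_const)
    intro p hp
    exact (closure_minimal (fun q hq => hy q hq) hcc) hp
  have hq : ∀ p : ℝ × ℝ, y₁ ≤ p.2 ∧ p.2 ≤ y₁ + h → 0 ≤ F / 2 * (h ^ 2 - (p.2 - y₁) ^ 2) := by
    intro p hp
    apply mul_nonneg (by linarith)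
    nlinarith [hp.1, hp.2]
  have hψe : ∀ᶠ k in atTop, ∃ ψ : ℝ × ℝ → ℝ, ContDiff ℝ 1 ψ ∧ HasCompactSupport ψ ∧
      (∀ p, 0 ≤ ψ p) ∧ tsupport ψ ⊆ B ∧ (∀ p ∈ Oc ϕ ∩ B, ψ p = H (z k p)) ∧
      (∀ p ∈ Om ϕ ∩ B, fderiv ℝ ψ p = H' (z k p) • fderiv ℝ (z k) p) := by
    filter_upwards [hfr δ hδ] with k hk
    refine hC ϕ hϕ B hB bB (z k) (hz1 k) ?_
    intro p hp
    have h1 := hk p hp
    have h2 := hq p (hcl p (frontier_subset_closure hp.1))
    show v k p - (c + F / 2 * (h ^ 2 - (p.2 - y₁) ^ 2)) < 0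
    rw [hc]
    linarith
  obtain ⟨ψ, hψ⟩ := hψe.choice
  have he : Tendsto (fun k => Dk ϕ Gx Gy (v k) R + 2 * α⁻¹ * S * Qk ϕ T (v k) R) atTop (𝓝 0) := by
    have := (tendsto_D ha R).add ((tendsto_Q hϕ ha R).const_mul (2 * α⁻¹ * S))
    simpa using this
  have hE : ∀ᶠ k in atTop, ∫ p in Om ϕ, (dx (ψ k) p * dx (z k) p + dy (ψ k) p * dy (z k) p) ≤
      Dk ϕ Gx Gy (v k) R + 2 * α⁻¹ * S * Qk ϕ T (v k) R := by
    filter_upwards [hψ] with k hk
    obtain ⟨c1, c2, c3, c4, c5, c6⟩ := hk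
    exact step_max hL hS hBR hy hc0 (fun p => rfl) c1 c2 c3 c4 c5 c6
  have hZ : Tendsto (fun k => ∫⁻ p in B ∩ Om ϕ,
      ‖z k p - (u p - (c + F / 2 * (h ^ 2 - (p.2 - y₁) ^ 2)))‖ₑ) atTop (𝓝 0) := by
    refine (tendsto_L1 ha hBR).congr fun k => ?_
    refine lintegral_congr fun p => ?_
    congr 1
    show _ = v k p - (c + F / 2 * (h ^ 2 - (p.2 - y₁) ^ 2)) - _
    ring
  have mZ : Measurable fun p : ℝ × ℝ => u p - (c + F / 2 * (h ^ 2 - (p.2 - y₁) ^ 2)) :=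
    ha.mu.sub (by fun_prop)
  have fin := core hP hϕ hB hBR hh hy z ψ hz1 hψ _ he hE _ mZ hZ
  filter_upwards [fin, ae_restrict_mem (hB.inter (isOpen_Om hϕ)).measurableSet] with p hp hpB
  have h3 : F / 2 * (h ^ 2 - (p.2 - y₁) ^ 2) ≤ F * h ^ 2 / 2 := by
    nlinarith [mul_nonneg hF (sq_nonneg (p.2 - y₁))]
  linarith

end Pool.Agent.W665.RB
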