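import Mathlib
import Pool.Agent.W665.RB.MAX

set_option autoImplicit false

open MeasureTheory Set Filter Topology
open scoped ENNReal NNReal

namespace Pool.Agent.W665.RB

open Pool.Agent.W98.RB

section

variable {ϕ : ℝ → ℝ} {K : ℝ≥0} {α : ℝ} {σ : ℝ → ℝ} {S F : ℝ}
  {u Gx Gy : ℝ × ℝ → ℝ} {T : ℝ → ℝ} {g : ℝ × ℝ → ℝ} {v : ℕ → ℝ × ℝ → ℝ}

/-- one step of the minimum principle -/
theorem step_min (hL : S_LIN) (hS : Sol ϕ K α σ S F u Gx Gy T g v) {B : Set (ℝ × ℝ)} {R : ℝ}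
    (hBR : B ⊆ Metric.ball 0 R) {y₁ h : ℝ}
    (hy : ∀ p ∈ B, y₁ ≤ p.2 ∧ p.2 ≤ y₁ + h) {c : ℝ} (hc : c ≤ 1) {k : ℕ} {z ψ : ℝ × ℝ → ℝ}
    (hzd : ∀ p, z p = c + α⁻¹ * S * (p.2 - (y₁ + h)) - v k p)
    (c1 : ContDiff ℝ 1 ψ) (c2 : HasCompactSupport ψ) (c3 : ∀ p, 0 ≤ ψ p) (c4 : tsupport ψ ⊆ B)
    (c5 : ∀ p ∈ Oc ϕ ∩ B, ψ p = H (z p))
    (c6 : ∀ p ∈ Om ϕ ∩ B, fderiv ℝ ψ p = H' (z p) • fderiv ℝ z p) :
    ∫ p in Om ϕ, (dx ψ p * dx z p + dy ψ p * dy z p) ≤
      Dk ϕ Gx Gy (v k) R + 2 * α⁻¹ * S * Qk ϕ T (v k) R := by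
  have hϕ := hS.lip.continuous
  have hS0 := S_nonneg hS
  have ha := hS.ap
  have hα : 0 < α⁻¹ := inv_pos.mpr hS.apos
  have hv := ha.c1 k
  set a : ℝ := α⁻¹ * S with haa
  have ha0 : 0 ≤ a := by positivity
  -- derivatives of `z`
  have hzf : ∀ p, HasFDerivAt z (a • ContinuousLinearMap.snd ℝ ℝ ℝ - fderiv ℝ (v k) p) p := by
    intro p
    have e : z = fun p => c + a * (p.2 - (y₁ + h)) - v k p := funext hzd
    rw [e]
    have d1 : HasFDerivAt (v k) (fderiv ℝ (v k) p) p :=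
      ((hv.differentiable one_ne_zero) p).hasFDerivAt
    have d2 : HasFDerivAt (fun p : ℝ × ℝ => p.2 - (y₁ + h)) (ContinuousLinearMap.snd ℝ ℝ ℝ) p :=
      hasFDerivAt_snd.sub_const (y₁ + h)
    exact ((d2.const_mul a).const_add c).sub d1
  have ezx : ∀ p, dx z p = -dx (v k) p := fun p => by
    simp [dx, (hzf p).fderiv]
  have ezy : ∀ p, dy z p = a - dy (v k) p := fun p => by
    simp [dy, (hzf p).fderiv]
  have hz : ContDiff ℝ 1 z := by
    have e : z = fun p => c + a * (p.2 - (y₁ + h)) - v k p := funext hzd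
    rw [e]
    fun_prop
  -- off the ball
  have off : ∀ p, p ∉ Metric.ball (0 : ℝ × ℝ) R → fderiv ℝ ψ p = 0 := fun p hp =>
    fderiv_zero_of_notMem fun h' => hp (hBR (c4 h'))
  have offx : ∀ p, p ∉ Metric.ball (0 : ℝ × ℝ) R → dx ψ p = 0 := fun p hp => by
    simp [dx, off p hp]
  have offy : ∀ p, p ∉ Metric.ball (0 : ℝ × ℝ) R → dy ψ p = 0 := fun p hp => by
    simp [dy, off p hp]
  have mψx := memC (continuous_dx c1) (Om ϕ) R
  have mψy := memC (continuous_dy c1) (Om ϕ) R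
  have mvx := (memC (continuous_dx hv) (Om ϕ) R).sub (memGx ha R)
  have mvy := (memC (continuous_dy hv) (Om ϕ) R).sub (memGy ha R)
  have ma : MemLp (fun _ : ℝ × ℝ => a) 2
      (volume.restrict (Om ϕ ∩ Metric.ball (0 : ℝ × ℝ) R)) := memC continuous_const _ _
  have i1 : Integrable
      (fun p => (-1) * (dx ψ p * (dx (v k) p - Gx p) + dy ψ p * (dy (v k) p - Gy p)))
      (volume.restrict (Om ϕ ∩ Metric.ball (0 : ℝ × ℝ) R)) :=
    ((mψx.integrable_mul mvx).add (mψy.integrable_mul mvy)).const_mul (-1)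
  have i2 : Integrable (fun p => Gx p * dx ψ p + Gy p * dy ψ p)
      (volume.restrict (Om ϕ ∩ Metric.ball (0 : ℝ × ℝ) R)) :=
    ((memGx ha R).integrable_mul mψx).add ((memGy ha R).integrable_mul mψy)
  have i3 : Integrable (fun p => dy ψ p * a)
      (volume.restrict (Om ϕ ∩ Metric.ball (0 : ℝ × ℝ) R)) := mψy.integrable_mul ma
  -- (1) splitting
  have s1 : ∫ p in Om ϕ, (dx ψ p * dx z p + dy ψ p * dy z p) =
      (∫ p in Om ϕ ∩ Metric.ball 0 R,
        (-1) * (dx ψ p * (dx (v k) p - Gx p) + dy ψ p * (dy (v k) p - Gy p)))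
      - (∫ p in Om ϕ, (Gx p * dx ψ p + Gy p * dy ψ p))
      + ∫ p in Om ϕ, dy ψ p * a := by
    rw [int_X hϕ (R := R) (f := fun p => dx ψ p * dx z p + dy ψ p * dy z p)
        (fun p hp => by rw [offx p hp, offy p hp]; ring),
      int_X hϕ (R := R) (f := fun p => Gx p * dx ψ p + Gy p * dy ψ p)
        (fun p hp => by rw [offx p hp, offy p hp]; ring),
      int_X hϕ (R := R) (f := fun p => dy ψ p * a)
        (fun p hp => by rw [offy p hp]; ring)]
    calc ∫ p in Om ϕ ∩ Metric.ball 0 R, (dx ψ p * dx z p + dy ψ p * dy z p)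
        = ∫ p in Om ϕ ∩ Metric.ball 0 R,
          (((-1) * (dx ψ p * (dx (v k) p - Gx p) + dy ψ p * (dy (v k) p - Gy p))
            - (Gx p * dx ψ p + Gy p * dy ψ p)) + dy ψ p * a) := by
          refine integral_congr_ae (Eventually.of_forall fun p => ?_)
          show dx ψ p * dx z p + dy ψ p * dy z p = _
          rw [ezx p, ezy p]
          ring
      _ = (∫ p in Om ϕ ∩ Metric.ball 0 R,
          ((-1) * (dx ψ p * (dx (v k) p - Gx p) + dy ψ p * (dy (v k) p - Gy p))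
            - (Gx p * dx ψ p + Gy p * dy ψ p)))
          + ∫ p in Om ϕ ∩ Metric.ball 0 R, dy ψ p * a :=
          integral_add (i1.sub i2) i3
      _ = _ := by rw [integral_sub i1 i2]
  -- (2) Young
  have s2 := young hϕ (memGx ha R) (memGy ha R) hv hz c1 c4 c6 (-1) (by norm_num)
  rw [← int_X hϕ (R := R) (f := fun p => dx ψ p * dx z p + dy ψ p * dy z p)
        (fun p hp => by rw [offx p hp, offy p hp]; ring)] at s2
  -- (3) weak form
  have s3 := hS.wk ψ c1 c2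
  have s4 : 0 ≤ ∫ p in Om ϕ, g p * ψ p :=
    setIntegral_nonneg (isOpen_Om hϕ).measurableSet fun p hp =>
      mul_nonneg (hS.g0 p hp) (c3 p)
  -- (4) LIN
  have s5 : ∫ p in Om ϕ, dy ψ p * a = -(a * ∫ x, ψ (x, ϕ x)) := by
    rw [integral_mul_const, hL ϕ hϕ ψ c1 c2]
    ring
  -- (5) boundary term
  have s6 : (∫ x, T x * ψ (x, ϕ x) * σ x) - S * ∫ x, ψ (x, ϕ x) ≤ S * Qk ϕ T (v k) R := by
    rw [bd_int (R := R) (f := fun x => T x * ψ (x, ϕ x) * σ x)
      (fun x hx => by rw [bd_ball hBR c4 hx]; ring),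
      bd_int (R := R) (f := fun x => ψ (x, ϕ x)) (fun x hx => bd_ball hBR c4 hx)]
    unfold Qk
    have j1 := int_bd hϕ (memT hϕ ha R) hS.ms hS.s0 hS.sS c1.continuous
    have j2 : Integrable (fun x => S * ψ (x, ϕ x)) (volume.restrict (Metric.ball (0 : ℝ) R)) := by
      have : IsFiniteMeasure (volume.restrict (Metric.ball (0 : ℝ) R)) := by
        refine ⟨?_⟩
        rw [Measure.restrict_apply_univ]
        exact measure_ball_lt_top
      exact ((memC1 (cont_tr hϕ c1.continuous) R).integrable (by norm_num)).const_mul S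
    rw [← integral_const_mul, ← integral_const_mul, ← integral_sub j1 j2]
    refine setIntegral_mono_on (j1.sub j2)
      ((int_Q hϕ ha R k).const_mul S) measurableSet_ball fun x _ => ?_
    by_cases h0 : ψ (x, ϕ x) = 0
    · rw [h0]
      simp only [mul_zero, zero_mul, sub_zero]
      positivity
    · have hB : (x, ϕ x) ∈ B := c4 (subset_tsupport _ h0)
      have e := c5 (x, ϕ x) ⟨le_refl (ϕ x), hB⟩
      have hz0 : 0 < z (x, ϕ x) := pos_of_H_ne (by rw [← e]; exact h0)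
      have hle : ψ (x, ϕ x) ≤ z (x, ϕ x) := by
        rw [e]
        exact (H_le _).trans (by rw [max_eq_left hz0.le])
      have hyy := hy _ hB
      simp only at hyy
      have hq : a * (ϕ x - (y₁ + h)) ≤ 0 :=
        mul_nonpos_of_nonneg_of_nonpos ha0 (by linarith [hyy.2])
      have hzz := hzd (x, ϕ x)
      simp only at hzz
      have hv1 : v k (x, ϕ x) < 1 := by linarith
      have hvz : z (x, ϕ x) ≤ 1 - v k (x, ϕ x) := by linarith
      have hψ0 := c3 (x, ϕ x)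
      have hσ := hS.s0 x
      have hσS := hS.sS x
      have a0 : T x * ψ (x, ϕ x) * σ x - S * ψ (x, ϕ x) ≤
          |v k (x, ϕ x) - T x| * (ψ (x, ϕ x) * σ x) := by
        have e1 : T x - v k (x, ϕ x) ≤ |v k (x, ϕ x) - T x| := by
          have := neg_abs_le (v k (x, ϕ x) - T x)
          linarith
        have e2 : 0 ≤ ψ (x, ϕ x) * σ x := mul_nonneg hψ0 hσ
        have e3 : v k (x, ϕ x) * (ψ (x, ϕ x) * σ x) ≤ S * ψ (x, ϕ x) := by
          calc v k (x, ϕ x) * (ψ (x, ϕ x) * σ x) ≤ 1 * (ψ (x, ϕ x) * σ x) :=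
                mul_le_mul_of_nonneg_right hv1.le e2
            _ ≤ S * ψ (x, ϕ x) := by
                rw [one_mul, mul_comm S]
                exact mul_le_mul_of_nonneg_left hσS hψ0
        have e4 := mul_le_mul_of_nonneg_right e1 e2
        nlinarith
      have a2 : ψ (x, ϕ x) * σ x ≤ S * (1 + |v k (x, ϕ x)|) := by
        have b1 : ψ (x, ϕ x) ≤ 1 + |v k (x, ϕ x)| := by
          have := neg_abs_le (v k (x, ϕ x))
          linarith
        calc ψ (x, ϕ x) * σ x ≤ (1 + |v k (x, ϕ x)|) * S :=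
              mul_le_mul b1 hσS hσ (by positivity)
          _ = _ := mul_comm _ _
      calc T x * ψ (x, ϕ x) * σ x - S * ψ (x, ϕ x)
          ≤ |v k (x, ϕ x) - T x| * (ψ (x, ϕ x) * σ x) := a0
        _ ≤ |v k (x, ϕ x) - T x| * (S * (1 + |v k (x, ϕ x)|)) :=
            mul_le_mul_of_nonneg_left a2 (abs_nonneg _)
        _ = S * (|v k (x, ϕ x) - T x| * (1 + |v k (x, ϕ x)|)) := by ring
  have s7 : α⁻¹ * (∫ x, T x * ψ (x, ϕ x) * σ x) - a * ∫ x, ψ (x, ϕ x)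
      ≤ α⁻¹ * (S * Qk ϕ T (v k) R) := by
    calc α⁻¹ * (∫ x, T x * ψ (x, ϕ x) * σ x) - a * ∫ x, ψ (x, ϕ x)
        = α⁻¹ * ((∫ x, T x * ψ (x, ϕ x) * σ x) - S * ∫ x, ψ (x, ϕ x)) := by
          rw [haa]; ring
      _ ≤ _ := mul_le_mul_of_nonneg_left s6 hα.le
  nlinarith [s1, s2, s3, s4, s5, s7]

end

/-- RB-MIN -/
theorem T_MIN (hC : S_CUT) (hL : S_LIN) (hP : S_POI) : S_MIN := by
  intro ϕ K α σ S F u Gx Gy T g v hS B hB bB y₁ h hh hy m hm hfr
  have hϕ := hS.lip.continuous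
  have hS0 := S_nonneg hS
  have hα : 0 < α⁻¹ := inv_pos.mpr hS.apos
  have ha := hS.ap
  obtain ⟨R, hBR⟩ := bB.subset_ball 0
  suffices hδ : ∀ δ > 0, ∀ᵐ p ∂(volume.restrict (B ∩ Om ϕ)),
      m - 2 * δ - α⁻¹ * S * h ≤ u p by
    have := ae_all_iff.2 (fun n : ℕ => hδ (1 / ((n : ℝ) + 1)) (by positivity))
    filter_upwards [this] with p hp
    by_contra hcon
    push Not at hcon
    obtain ⟨n, hn⟩ := exists_nat_one_div_lt (K := ℝ)
      (show 0 < (m - α⁻¹ * S * h - u p) / 2 by linarith)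
    have := hp n
    linarith
  intro δ hδ
  have ha0 : 0 ≤ α⁻¹ * S := by positivity
  set c : ℝ := m - 2 * δ with hc
  have hc0 : c ≤ 1 := by rw [hc]; linarith
  set z : ℕ → ℝ × ℝ → ℝ := fun k p => c + α⁻¹ * S * (p.2 - (y₁ + h)) - v k p with hz
  have hz1 : ∀ k, ContDiff ℝ 1 (z k) := fun k => by
    have := ha.c1 k
    rw [hz]
    fun_prop
  have hcl : ∀ p ∈ closure B, p.2 ≤ y₁ + h := by
    have hcc : IsClosed {p : ℝ × ℝ | p.2 ≤ y₁ + h} :=
      isClosed_le continuous_snd continuous_const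
    intro p hp
    exact (closure_minimal (fun q hq => (hy q hq).2) hcc) hp
  have hψe : ∀ᶠ k in atTop, ∃ ψ : ℝ × ℝ → ℝ, ContDiff ℝ 1 ψ ∧ HasCompactSupport ψ ∧
      (∀ p, 0 ≤ ψ p) ∧ tsupport ψ ⊆ B ∧ (∀ p ∈ Oc ϕ ∩ B, ψ p = H (z k p)) ∧
      (∀ p ∈ Om ϕ ∩ B, fderiv ℝ ψ p = H' (z k p) • fderiv ℝ (z k) p) := by
    filter_upwards [hfr δ hδ] with k hk
    refine hC ϕ hϕ B hB bB (z k) (hz1 k) ?_
    intro p hp
    have h1 := hk p hp
    have h2 := hcl p (frontier_subset_closure hp.1)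
    have h3 : α⁻¹ * S * (p.2 - (y₁ + h)) ≤ 0 :=
      mul_nonpos_of_nonneg_of_nonpos ha0 (by linarith)
    show c + α⁻¹ * S * (p.2 - (y₁ + h)) - v k p < 0
    rw [hc]
    linarith
  obtain ⟨ψ, hψ⟩ := hψe.choice
  have he : Tendsto (fun k => Dk ϕ Gx Gy (v k) R + 2 * α⁻¹ * S * Qk ϕ T (v k) R) atTop (𝓝 0) := by
    have := (tendsto_D ha R).add ((tendsto_Q hϕ ha R).const_mul (2 * α⁻¹ * S))
    simpa using this
  have hE : ∀ᶠ k in atTop, ∫ p in Om ϕ, (dx (ψ k) p * dx (z k) p + dy (ψ k) p * dy (z k) p) ≤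
      Dk ϕ Gx Gy (v k) R + 2 * α⁻¹ * S * Qk ϕ T (v k) R := by
    filter_upwards [hψ] with k hk
    obtain ⟨c1, c2, c3, c4, c5, c6⟩ := hk
    exact step_min hL hS hBR hy hc0 (fun p => rfl) c1 c2 c3 c4 c5 c6
  have hZ : Tendsto (fun k => ∫⁻ p in B ∩ Om ϕ,
      ‖z k p - (c + α⁻¹ * S * (p.2 - (y₁ + h)) - u p)‖ₑ) atTop (𝓝 0) := by
    refine (tendsto_L1 ha hBR).congr fun k => ?_
    refine lintegral_congr fun p => ?_
    have e : z k p - (c + α⁻¹ * S * (p.2 - (y₁ + h)) - u p) = -(v k p - u p) := by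
      show (c + α⁻¹ * S * (p.2 - (y₁ + h)) - v k p) - _ = _
      ring
    rw [e, enorm_neg]
  have mZ : Measurable fun p : ℝ × ℝ => c + α⁻¹ * S * (p.2 - (y₁ + h)) - u p :=
    Measurable.sub (by fun_prop) ha.mu
  have fin := core hP hϕ hB hBR hh hy z ψ hz1 hψ _ he hE _ mZ hZ
  filter_upwards [fin, ae_restrict_mem (hB.inter (isOpen_Om hϕ)).measurableSet] with p hp hpB
  have h3 : -(α⁻¹ * S * h) ≤ α⁻¹ * S * (p.2 - (y₁ + h)) := by
    have := mul_le_mul_of_nonneg_left (hy p hpB.1).1 ha0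
    nlinarith
  linarith

end Pool.Agent.W665.RB
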